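import Pool.Agent.V7H41.CC.Trees
import Pool.Agent.V7H39.CC.CONC
import Pool.Agent.V7H31.CC.CUT
import Pool.Agent.V7H67.CC.PIECES
import Pool.Agent.V7H67.CC.TFP
import Pool.Agent.V7H81.CC.GREEDY
import Pool.Agent.V7H43.CC.SFIN

/-!
# All pairs of phylogenetic trees have many common convex partitions with `n - m` classes,
`m ≤ sqrt n / 200`
-/

namespace Pool.Agent.Results.MP_7af81b_co.AllTreesExcessH41

open Pool.Agent.V7H41.CC

/-- For large `n` and `2 ≤ m ≤ sqrt n / 200` the minimum `s_{n,n-m}` over all pairs of trees is at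
least `(n^2 / (10^4 m^2))^m / m!`, and at least twice the trivial bound `C(n, m+1)`. -/
theorem result : ∃ n₀ : ℕ, ∀ n m : ℕ, n₀ ≤ n → 2 ≤ m → (200 * m) ^ 2 ≤ n →
    ((n : ℝ) ^ 2 / (10000 * (m : ℝ) ^ 2)) ^ m / m.factorial ≤ s n (n - m) ∧
    2 * n.choose (m + 1) ≤ s n (n - m) :=
  trees_low Pool.Agent.V7H39.CC.t_CONC (Pool.Agent.V7H67.CC.t_PIECES Pool.Agent.V7H31.CC.t_CUT)
    Pool.Agent.V7H67.CC.t_TFP Pool.Agent.V7H81.CC.t_GREEDY Pool.Agent.V7H43.CC.t_SFIN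

end Pool.Agent.Results.MP_7af81b_co.AllTreesExcessH41
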