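import Pool.Agent.V7H41.CC.Asm3
import Pool.Agent.V7H39.CC.CAT
import Pool.Agent.V7H39.CC.CONC
import Pool.Agent.V7H96.CC.SINGLE
import Pool.Agent.V7H4.CC.PAIRS
import Pool.Agent.V7H11.CC.COMP
import Pool.Agent.V7H37.CC.CORE
import Pool.Agent.V7H65.CC.TRANS
import Pool.Agent.V7H54.CC.PERM
import Pool.Agent.V7H62.CC.SUM
import Pool.Agent.V7H46.CC.AVG
import Pool.Agent.V7H84.CC.UPPER3
import Pool.Agent.V7H94.CC.LOWL3
import Pool.Agent.V7H98.CC.SINL3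
import Pool.Agent.V7H31.CC.NUM3

/-!
# The minimum common convex partition counts of caterpillars are not log-concave
-/

namespace Pool.Agent.Results.MP_7af81b_co.LogConcavityFailsH41

open Pool.Agent.V7H41.CC

/-- For all large `n` the sequence `c_{n,k}` is not log-concave: the inequality fails for some
`k` with `n - sqrt n < k < n - 0.27 sqrt n`. -/
theorem result : ∃ n₀ : ℕ, ∀ n : ℕ, n₀ ≤ n → ∃ k : ℕ, 1 < k ∧ k < n ∧
    (n : ℝ) - Real.sqrt n < k ∧ (k : ℝ) < n - 0.27 * Real.sqrt n ∧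
    c n k ^ 2 < c n (k - 1) * c n (k + 1) :=
  final3 (main3 Pool.Agent.V7H96.CC.t_SINGLE Pool.Agent.V7H39.CC.t_CAT Pool.Agent.V7H39.CC.t_CONC
    Pool.Agent.V7H4.CC.t_PAIRS (Pool.Agent.V7H37.CC.t_CORE t_WORD' Pool.Agent.V7H11.CC.t_COMP)
    Pool.Agent.V7H65.CC.t_TRANS
    (Pool.Agent.V7H46.CC.t_AVG Pool.Agent.V7H54.CC.t_PERM Pool.Agent.V7H62.CC.t_SUM)
    Pool.Agent.V7H84.CC.t_UPPER3 Pool.Agent.V7H94.CC.t_LOWL3 Pool.Agent.V7H98.CC.t_SINL3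
    Pool.Agent.V7H31.CC.t_NUM3)

end Pool.Agent.Results.MP_7af81b_co.LogConcavityFailsH41
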