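import Pool.Agent.V7H41.CD.Final
import Pool.Agent.V7H39.CC.CONC
import Pool.Agent.V7H96.CC.SINGLE
import Pool.Agent.V7H54.CC.PERM
import Pool.Agent.V7H62.CC.SUM
import Pool.Agent.V7H46.CC.AVG
import Pool.Agent.V7H46.CC.AVB
import Pool.Agent.V7H80.CC.FACT
import Pool.Agent.V7H84.CC.WB
import Pool.Agent.V7H98.CC.RHO
import Pool.Agent.V7H43.CC.UNI
import Pool.Agent.V7H90.CC.AVB97
import Pool.Agent.V7H87.CC.STEP97
import Pool.Agent.V7H24.CD.FAM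
import Pool.Agent.V7H31.CD.NEAR
import Pool.Agent.V7H94.CD.LOW
import Pool.Agent.V7H43.CD.NUM

/-!
# Both sequences `s_{n,k}`, `c_{n,k}` outside of the window `n - 0.97 sqrt n < k < n - n^(1/13)`
-/

namespace Pool.Agent.Results.MP_7af81b_co.UnimodalBulkH41

open Pool.Agent.V7H41.CC Pool.Agent.V7H41.CD

/-- For large `n` and each of the two sequences `a = c_{n,.}`, `a = s_{n,.}`:
(1) `a_k = C(n,k-1) (1 + O(n/(n-k)^3))` for `n - k ≥ 0.97 sqrt n`;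
(2) `a` is non-decreasing up to a peak `p` with `n ≤ 2 p ≤ n + 3` and non-increasing from `p` on as
long as `n - k ≥ 0.97 sqrt n`; (3) `a` is non-increasing on the last `n^(1/13)` indices;
(4) `a` is log-concave at `k` if `n - k ≥ 20 sqrt n`.
Moreover (5) for every pair of phylogenetic trees `T`, `F` the numbers `common T F k` are
non-increasing on the last `n^(1/13)` indices `k`. -/
theorem result : ∃ n₀ : ℕ, ∃ C : ℝ, ∀ n : ℕ, n₀ ≤ n →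
    (∀ a : ℕ → ℕ, (a = c n ∨ a = s n) →
      (∀ k, 1 ≤ k → k < n → 97 ^ 2 * n ≤ (100 * (n - k)) ^ 2 →
        (n.choose (k - 1) : ℝ) ≤ a k ∧
        (a k : ℝ) ≤ n.choose (k - 1) * (1 + C * (n : ℝ) / ((n - k : ℕ) : ℝ) ^ 3)) ∧
      (∃ p, n ≤ 2 * p ∧ 2 * p ≤ n + 3 ∧ (∀ j k, 1 ≤ j → j ≤ k → k ≤ p → a j ≤ a k) ∧
        (∀ j k, p ≤ j → j ≤ k → k < n → 97 ^ 2 * n ≤ (100 * (n - k)) ^ 2 → a k ≤ a j)) ∧
      (∀ k, k < n → (n - k) ^ 13 ≤ n → a (k + 1) ≤ a k) ∧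
      (∀ k, 2 ≤ k → k < n → 400 * n ≤ (n - k) ^ 2 → a (k - 1) * a (k + 1) ≤ a k ^ 2)) ∧
    ∀ (T F : PhyloTree n) (k : ℕ), k < n → (n - k) ^ 13 ≤ n →
      common T F (k + 1) ≤ common T F k :=
  have hWB := Pool.Agent.V7H84.CC.t_WB Pool.Agent.V7H80.CC.t_FACT
  bulk_final Pool.Agent.V7H96.CC.t_SINGLE Pool.Agent.V7H39.CC.t_CONC
    (Pool.Agent.V7H46.CC.t_AVG Pool.Agent.V7H54.CC.t_PERM Pool.Agent.V7H62.CC.t_SUM)
    (Pool.Agent.V7H46.CC.t_AVB hWB Pool.Agent.V7H98.CC.t_RHO)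
    Pool.Agent.V7H43.CC.t_UNI Pool.Agent.V7H90.CC.t_AVB97 Pool.Agent.V7H87.CC.t_STEP97
    (tail_all Pool.Agent.V7H96.CC.t_SINGLE Pool.Agent.V7H24.CD.t_FAM Pool.Agent.V7H31.CD.t_NEAR
      Pool.Agent.V7H94.CD.t_LOW Pool.Agent.V7H43.CD.t_NUM)

end Pool.Agent.Results.MP_7af81b_co.UnimodalBulkH41
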